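import Pool.Agent.KS6_90.BP.Low

set_option autoImplicit false

namespace Pool.Agent.KS6_90.BP
open Finset Filter Topology Real MeasureTheory Pool.Agent.H.MP_f44585_an
  Pool.Agent.H.MP_0447a2_lc Pool.Agent.H.MP_034cab_an ComplexConjugate

theorem int_eq_tsum {a : ℕ → ℂ} (h : Rd a) {x : ℝ} (x0 : 0 ≤ x) (x1 : x < 1) :
    ∫ t in (0 : ℝ)..1, ‖PS a (√x * ee t)‖ ^ 2 = ∑' n, ‖a n‖ ^ 2 * x ^ n := by
  have c := h.cont x0 x1
  rw [← self_conj, ← h.pars h x0 x1, int_re (by fun_prop)]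
  refine intervalIntegral.integral_congr fun t _ => ?_
  simp only [Complex.mul_conj, Complex.normSq_eq_norm_sq, Complex.ofReal_re]

theorem sum_le_int {a : ℕ → ℂ} (h : Rd a) {x : ℝ} (x0 : 0 ≤ x) (x1 : x < 1) {N : ℕ}
    (hN : 2 * (N * (1 - x)) ≤ 1) :
    (∑ n ∈ Icc 1 N, ‖a n‖ ^ 2) / 2 ≤ ∫ t in (0 : ℝ)..1, ‖PS a (√x * ee t)‖ ^ 2 := by
  rw [int_eq_tsum h x0 x1]
  have e2 : 1 / 2 ≤ x ^ N := by
    have := one_add_mul_le_pow (a := x - 1) (by linarith) N
    rw [add_sub_cancel] at this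
    nlinarith
  have s : Summable fun n => ‖a n‖ ^ 2 * x ^ n := by simpa [sq] using h.hp h x x0 x1
  refine le_trans ?_ (s.sum_le_tsum (Icc 1 N) fun n _ => by positivity)
  rw [sum_div]
  refine sum_le_sum fun n hn => ?_
  have := pow_le_pow_of_le_one x0 x1.le (mem_Icc.mp hn).2
  nlinarith [sq_nonneg ‖a n‖]

theorem S_up {C : ℝ} {a : ℕ → ℂ} {A : ℝ} (h : Good C a) (hA : 0 < A)
    (hA2 : ∀ x, 0 ≤ x → x < 1 →
      ∫ t in (0 : ℝ)..1, ‖PS a (√x * ee t)‖ ^ 2 ≤ A * el C x ^ (1 / 2 : ℝ)) {N : ℕ} (hN : 2 ≤ N) :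
    ∑ n ∈ Icc 1 N, ‖a n‖ ^ 2 ≤ 4 * A * √(1 + C ^ 2 * log N) := by
  have n0 : (2 : ℝ) ≤ N := by exact_mod_cast hN
  have n1 : (2 * N : ℝ)⁻¹ ≤ 1 / 2 := by rw [inv_le_comm₀ (by linarith) (by norm_num)]; linarith
  have n2 : (0 : ℝ) < (2 * N : ℝ)⁻¹ := by positivity
  have e1 := sum_le_int h.rd (x := 1 - (2 * N : ℝ)⁻¹) (by linarith) (by linarith) (N := N) (by
    rw [sub_sub_cancel]; field_simp; norm_num)
  have e2 := hA2 (1 - (2 * N : ℝ)⁻¹) (by linarith) (by linarith)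
  rw [← sqrt_eq_rpow] at e2
  have e3 : el C (1 - (2 * N : ℝ)⁻¹) ≤ 2 ^ 2 * (1 + C ^ 2 * log N) := by
    rw [el, sub_sub_cancel, log_inv, log_mul two_ne_zero (by linarith)]
    have := log_le_log two_pos n0
    nlinarith [sq_nonneg C, mul_le_mul_of_nonneg_left this (sq_nonneg C),
      log_nonneg (by linarith : (1 : ℝ) ≤ N), mul_nonneg (sq_nonneg C)
      (log_nonneg (by linarith : (1 : ℝ) ≤ N))]
  have e4 := Real.sqrt_le_sqrt e3
  rw [Real.sqrt_mul (by norm_num), Real.sqrt_sq (by norm_num)] at e4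
  nlinarith

theorem kex {y : ℝ} (hy : 16 ≤ y) : ∃ k : ℕ, (512 : ℝ) ^ k ≤ exp y ∧ √y / 4 ≤ √k := by
  have l1 : log 512 = 9 * log 2 := by
    rw [show (512 : ℝ) = 2 ^ 9 by norm_num, log_pow]; norm_num
  have l2 := log_two_lt_d9
  have l3 := log_two_gt_d9
  refine ⟨⌊y / log 512⌋₊, ?_, ?_⟩
  · have := Nat.floor_le (show 0 ≤ y / log 512 by rw [l1]; positivity)
    rw [le_div_iff₀ (by rw [l1]; positivity)] at this
    rwa [← Real.log_le_iff_le_exp (by positivity), log_pow]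
  · have := Nat.sub_one_lt_floor (y / log 512)
    have h2 : y / 7 ≤ y / log 512 := by
      rw [l1]
      gcongr
      linarith
    have h3 : y / 16 ≤ ⌊y / log 512⌋₊ := by linarith
    have h4 := Real.sqrt_le_sqrt h3
    rwa [Real.sqrt_div' _ (by norm_num), show √16 = 4 by
      rw [show (16 : ℝ) = 4 ^ 2 by norm_num, Real.sqrt_sq (by norm_num)]] at h4

theorem lower_good : ∃ c, 0 < c ∧ ∀ C, 0 < C → ∃ a, Good C a ∧
    (∀ᶠ N : ℕ in atTop, c * (C * √(log N)) ≤ ∑ n ∈ Icc 1 N, ‖a n‖ ^ 2) ∧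
    ∀ᶠ x in 𝓝[<] (1 : ℝ), c * el C x ^ (1 / 2 : ℝ) ≤
      ∫ t in (0 : ℝ)..1, (PS a (√x * ee t)).re ^ 2 := by
  refine ⟨1 / 2 ^ 20, by positivity, fun C hC => ?_⟩
  obtain ⟨κ, hκ⟩ : ∃ κ, κ = 1024 / C := ⟨_, rfl⟩
  have κ0 : 0 < κ := by rw [hκ]; positivity
  obtain ⟨a, h1, h2, h3, h4, h5⟩ := lower κ0
  obtain ⟨b, hb⟩ : ∃ b : ℕ → ℂ, b = fun n => (a n / κ + (Pi.single 0 1 : ℕ → ℂ) n) / 2 := ⟨_, rfl⟩
  have κ1 : (κ : ℂ) ≠ 0 := by exact_mod_cast κ0.ne'
  have hbn : ∀ n, n ≠ 0 → b n = a n / κ / 2 := fun n hn => by simp [hb, hn]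
  have hb0 : b 0 = 1 := by simp [hb, h2, κ1]
  have brd : Rd b := fun r r0 r1 => by
    refine Summable.of_nonneg_of_le (fun _ => by positivity) (fun n => ?_)
      (((h1 r r0 r1).mul_left (1 / κ)).add (summable_geometric_of_lt_one r0 r1))
    have key : ‖b n‖ ≤ 1 / κ * ‖a n‖ + 1 := by
      rcases eq_or_ne n 0 with rfl | hn
      · rw [hb0, norm_one]
        have : 0 ≤ 1 / κ * ‖a 0‖ := by positivity
        linarith
      · rw [hbn n hn, norm_div, norm_div, Complex.norm_real, Real.norm_of_nonneg κ0.le,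
          Complex.norm_two]
        have : 0 ≤ ‖a n‖ / κ := by positivity
        rw [one_div_mul_eq_div]
        linarith
    calc ‖b n‖ * r ^ n ≤ (1 / κ * ‖a n‖ + 1) * r ^ n := by gcongr
      _ = _ := by ring
  have bps : ∀ z, ‖z‖ < 1 → PS b z = (PS a z / κ + 1) / 2 := fun z hz => by
    have := ((((h1.sum hz).of_norm.hasSum.div_const (κ : ℂ)).add (hasSum_single
      (f := fun n => (Pi.single 0 1 : ℕ → ℂ) n * z ^ n) 0 fun n hn => by simp [hn])).div_const 2)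
    simp only [Pi.single_eq_same, pow_zero, mul_one] at this
    rw [PS, PS, ← this.tsum_eq]
    refine tsum_congr fun n => ?_
    rw [hb]; ring
  have bd : ∀ z, ‖z‖ < 1 → PS (DD b) z = PS (DD a) z / κ / 2 := fun z hz => by
    refine (brd.der hz).unique ((((h1.der hz).div_const (κ : ℂ)).add_const 1).div_const 2
      |>.congr_of_eventuallyEq ?_)
    filter_upwards [Metric.isOpen_ball.mem_nhds (mem_ball_zero_iff.mpr hz)] with w hw
    exact bps w (mem_ball_zero_iff.mp hw)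
  have good : Good C b := by
    refine ⟨brd, hb0, fun z hz => ?_, fun z hz => ?_⟩
    · rw [bps z hz]
      have := h3 z hz
      have e : (PS a z / (κ : ℂ)).re = (PS a z).re / κ := Complex.div_ofReal_re _ _
      simp only [Complex.div_ofNat_re, Complex.add_re, Complex.one_re, e]
      positivity
    · rw [bd z hz, norm_div, norm_div, Complex.norm_real, Real.norm_of_nonneg κ0.le,
        Complex.norm_two]
      have := h4 z hz
      calc _ = ((1 - ‖z‖ ^ 2) * ‖PS (DD a) z‖) / κ / 2 := by ring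
        _ ≤ 2048 / κ / 2 := by gcongr
        _ = C := by rw [hκ]; field_simp; norm_num
  obtain ⟨D, hD⟩ : ∃ D, D = ((4 + 4 * κ) + κ ^ 2) / (4 * κ ^ 2) := ⟨_, rfl⟩
  have h6 : ∀ k : ℕ, C * √k / 4096 - D ≤ ∑ n ∈ Icc 1 (512 ^ k), ‖b n‖ ^ 2 := fun k => by
    have e : ∑ n ∈ Icc 1 (512 ^ k), ‖b n‖ ^ 2 =
        (∑ n ∈ Icc 1 (512 ^ k), ‖a n‖ ^ 2) / (4 * κ ^ 2) := by
      rw [sum_div]
      refine sum_congr rfl fun n hn => ?_
      rw [hbn n (by have := (mem_Icc.mp hn).1; omega), norm_div, norm_div, Complex.norm_real,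
        Real.norm_of_nonneg κ0.le, Complex.norm_two]
      ring
    rw [e, hD]
    have e2 : C * √k / 4096 = κ * √k / (4 * κ ^ 2) := by rw [hκ]; field_simp; ring
    rw [e2, ← sub_div]
    gcongr
    linarith [h5 k]
  refine ⟨b, good, ?_, ?_⟩
  · have t1 : Tendsto (fun N : ℕ => C * √(log N)) atTop atTop :=
      (tendsto_sqrt_atTop.comp (tendsto_log_atTop.comp tendsto_natCast_atTop_atTop)).const_mul_atTop
        hC
    have t2 : Tendsto (fun N : ℕ => log (N : ℝ)) atTop atTop :=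
      tendsto_log_atTop.comp tendsto_natCast_atTop_atTop
    filter_upwards [t1.eventually_ge_atTop (2 ^ 20 * D), t2.eventually_ge_atTop 16,
      eventually_ge_atTop 1] with N g1 g2 g3
    obtain ⟨k, k1, k2⟩ := kex g2
    have N0 : (0 : ℝ) < N := by exact_mod_cast g3
    rw [exp_log N0] at k1
    have k3 : 512 ^ k ≤ N := by exact_mod_cast k1
    have := (h6 k).trans (sum_le_sum_of_subset_of_nonneg (Icc_subset_Icc_right k3)
      fun _ _ _ => sq_nonneg _)
    refine le_trans ?_ this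
    have k4 := mul_le_mul_of_nonneg_left k2 hC.le
    have k5 : 0 ≤ C * √(log N) := by positivity
    linarith
  · have t0 : Tendsto (fun x : ℝ => -log (1 - x)) (𝓝[<] 1) atTop := by
      have : Tendsto (fun x : ℝ => 1 - x) (𝓝[<] 1) (𝓝[>] 0) := by
        refine tendsto_nhdsWithin_iff.mpr ⟨?_, ?_⟩
        · have : Tendsto (fun x : ℝ => 1 - x) (𝓝 1) (𝓝 (1 - 1)) :=
            tendsto_const_nhds.sub tendsto_id
          rw [sub_self] at this
          exact this.mono_left nhdsWithin_le_nhds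
        · filter_upwards [self_mem_nhdsWithin] with x hx
          exact sub_pos.mpr (Set.mem_Iio.mp hx)
      exact tendsto_neg_atBot_atTop.comp (tendsto_log_nhdsGT_zero.comp this)
    have t1 : Tendsto (fun x : ℝ => C * √(-log (1 - x))) (𝓝[<] 1) atTop :=
      (tendsto_sqrt_atTop.comp t0).const_mul_atTop hC
    filter_upwards [t1.eventually_ge_atTop (2 ^ 20 * D), t1.eventually_ge_atTop 1,
      t0.eventually_ge_atTop 32, self_mem_nhdsWithin, mem_nhdsWithin_of_mem_nhds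
      (lt_mem_nhds (show (0 : ℝ) < 1 by norm_num))] with x g1 g2 g3 x1 x0
    obtain ⟨L, hL⟩ : ∃ L, L = -log (1 - x) := ⟨_, rfl⟩
    rw [← hL] at g1 g2 g3
    have x1' : x < 1 := x1
    obtain ⟨k, k1, k2⟩ := kex (y := L - log 2) (by linarith [log_two_lt_d9])
    have e1 : exp (L - log 2) = 1 / (2 * (1 - x)) := by
      rw [exp_sub, exp_log two_pos, hL, exp_neg, exp_log (by linarith)]
      field_simp
    have k3 : 2 * (((512 ^ k : ℕ) : ℝ) * (1 - x)) ≤ 1 := by
      rw [e1, le_div_iff₀ (by linarith)] at k1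
      push_cast
      linarith
    have e2 := sum_le_int brd x0.le x1' k3
    have e3 := good.msq x0.le x1'
    have e4 := h6 k
    have e5 : √L / 8 ≤ √k := by
      have : L / 4 ≤ L - log 2 := by linarith [log_two_lt_d9]
      have := Real.sqrt_le_sqrt this
      rw [Real.sqrt_div' _ (by norm_num), show √4 = 2 by
        rw [show (4 : ℝ) = 2 ^ 2 by norm_num, Real.sqrt_sq (by norm_num)]] at this
      linarith
    have e6 : el C x ^ (1 / 2 : ℝ) ≤ 2 * (C * √L) := by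
      rw [← sqrt_eq_rpow]
      refine Real.sqrt_le_iff.mpr ⟨by positivity, ?_⟩
      have : el C x = 1 + C ^ 2 * L := by rw [el, hL]; ring
      rw [this]
      have g4 : C ^ 2 * L = (C * √L) ^ 2 := by rw [mul_pow, Real.sq_sqrt (by linarith)]
      rw [g4]
      nlinarith
    have k4 := mul_le_mul_of_nonneg_left e5 hC.le
    have k5 : 0 ≤ C * √L := by positivity
    rw [e3]
    linarith

end Pool.Agent.KS6_90.BP
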