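import Mathlib

set_option autoImplicit false

namespace Pool.Agent.KS6_90.BP
open Real MeasureTheory

/-- splitting at height `L`, exponents `a ≤ p ≤ b`. -/
theorem split_le {t L a p b : ℝ} (ht : 0 < t) (hL : 0 < L) (ha : a ≤ p) (hb : p ≤ b) :
    t ^ p ≤ L ^ (p - a) * t ^ a + L ^ (p - b) * t ^ b := by
  have h1 : 0 ≤ L ^ (p - a) * t ^ a := by positivity
  have h2 : 0 ≤ L ^ (p - b) * t ^ b := by positivity
  rcases le_total t L with h | h
  · have : t ^ p ≤ L ^ (p - a) * t ^ a := by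
      calc t ^ p = t ^ (p - a) * t ^ a := by rw [← rpow_add ht]; congr 1; ring
        _ ≤ _ := by
          refine mul_le_mul_of_nonneg_right ?_ (by positivity)
          exact rpow_le_rpow ht.le h (by linarith)
    linarith
  · have : t ^ p ≤ L ^ (p - b) * t ^ b := by
      calc t ^ p = t ^ (p - b) * t ^ b := by rw [← rpow_add ht]; congr 1; ring
        _ ≤ _ := by
          refine mul_le_mul_of_nonneg_right ?_ (by positivity)
          exact rpow_le_rpow_of_nonpos hL h (by linarith)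
    linarith

/-- lower bound of `t ^ p` by `t ^ 2`, `p ≥ 2` -/
theorem low_ge {t L p : ℝ} (ht : 0 < t) (hL : 0 < L) (hp : 2 ≤ p) :
    L ^ (p - 2) * (t ^ 2 - L * t) ≤ t ^ p := by
  rcases le_total t L with h | h
  · have : t ^ 2 - L * t ≤ 0 := by nlinarith
    have h1 : 0 < t ^ p := by positivity
    have h2 : 0 < L ^ (p - 2) := by positivity
    nlinarith
  · calc L ^ (p - 2) * (t ^ 2 - L * t) ≤ L ^ (p - 2) * t ^ 2 := by gcongr; nlinarith
      _ ≤ t ^ (p - 2) * t ^ 2 := by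
          refine mul_le_mul_of_nonneg_right ?_ (by positivity)
          exact rpow_le_rpow hL.le h (by linarith)
      _ = t ^ p := by rw [← rpow_natCast, ← rpow_add ht]; congr 1; push_cast; ring

/-- lower bound of `t ^ p` by `t ^ 2` and `t ^ 4`, `p ≤ 2` -/
theorem low_le {t L p : ℝ} (ht : 0 < t) (hL : 0 < L) (hp : p ≤ 2) :
    L ^ (p - 2) * (t ^ 2 - t ^ 4 / L ^ 2) ≤ t ^ p := by
  rcases le_total t L with h | h
  · calc L ^ (p - 2) * (t ^ 2 - t ^ 4 / L ^ 2) ≤ L ^ (p - 2) * t ^ 2 := by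
          gcongr
          have : 0 ≤ t ^ 4 / L ^ 2 := by positivity
          linarith
      _ ≤ t ^ (p - 2) * t ^ 2 := by
          refine mul_le_mul_of_nonneg_right ?_ (by positivity)
          exact rpow_le_rpow_of_nonpos ht h (by linarith)
      _ = t ^ p := by rw [← rpow_natCast, ← rpow_add ht]; congr 1; push_cast; ring
  · have h3 : t ^ 2 - t ^ 4 / L ^ 2 ≤ 0 := by
      rw [sub_nonpos, le_div_iff₀ (by positivity)]
      have : L ^ 2 ≤ t ^ 2 := by gcongr
      nlinarith [sq_nonneg t]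
    have h1 : 0 < t ^ p := by positivity
    have h2 : 0 < L ^ (p - 2) := by positivity
    nlinarith

theorem tlogt (t : ℝ) (ht : 0 < t) : -1 ≤ t * log t := by
  have := one_sub_inv_le_log_of_pos ht
  have h2 : t * (1 - t⁻¹) ≤ t * log t := by gcongr
  rw [mul_sub, mul_inv_cancel₀ ht.ne'] at h2
  linarith

/-- lower bound of `t log t` -/
theorem tlogt_low {t s R : ℝ} (ht : 0 < t) (hs : 1 ≤ s) (hR : s < R) :
    -1 + log s * (t * (4 * ((t - s) * (R - t)) / (R - s) ^ 2)) ≤ t * log t := by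
  have hd : 0 < (R - s) ^ 2 := by nlinarith
  have l0 : 0 ≤ log s := log_nonneg hs
  rcases le_total t s with h | h
  · have h1 : t * (4 * ((t - s) * (R - t)) / (R - s) ^ 2) ≤ 0 := by
      refine mul_nonpos_of_nonneg_of_nonpos ht.le (div_nonpos_of_nonpos_of_nonneg ?_ hd.le)
      nlinarith
    nlinarith [tlogt t ht]
  · have h1 : 4 * ((t - s) * (R - t)) / (R - s) ^ 2 ≤ 1 := by
      rw [div_le_one hd]; nlinarith [sq_nonneg ((t - s) - (R - t))]
    have h2 : log s ≤ log t := log_le_log (by linarith) h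
    calc _ ≤ -1 + log s * (t * 1) := by gcongr
      _ ≤ t * log t := by nlinarith

theorem tlogt_up {t L : ℝ} (ht : 0 < t) (hL : 0 < L) :
    t * log t ≤ log L * t + t ^ 2 / L := by
  have h1 := log_le_sub_one_of_pos (div_pos ht hL)
  rw [log_div ht.ne' hL.ne'] at h1
  have h2 : t * log t ≤ t * (log L + (t / L - 1)) := by gcongr; linarith
  have h3 : t * (log L + (t / L - 1)) = log L * t + t ^ 2 / L - t := by ring
  linarith

/-- `Re (w ^ p)` in polar form -/
theorem re_cpow (w : ℂ) (hw : w ≠ 0) (p : ℝ) :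
    (w ^ (p : ℂ)).re = ‖w‖ ^ p * cos (p * w.arg) := by
  rw [Complex.cpow_def_of_ne_zero hw, Complex.exp_re, Complex.re_mul_ofReal,
    Complex.im_mul_ofReal, Complex.log_re, Complex.log_im, rpow_def_of_pos (norm_pos_iff.mpr hw),
    mul_comm p w.arg]

theorem arg_lt {w : ℂ} (hw : 0 < w.re) : |w.arg| < π / 2 :=
  Complex.abs_arg_lt_pi_div_two_iff.mpr (Or.inl hw)

/-- Kolmogorov -/
theorem kolm {p : ℝ} (hp : 0 < p) (hp1 : p < 1) {w : ℂ} (hw : 0 < w.re) :
    cos (p * (π / 2)) * ‖w‖ ^ p ≤ (w ^ (p : ℂ)).re := by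
  have hw0 : w ≠ 0 := by rintro rfl; simp at hw
  rw [re_cpow w hw0, mul_comm]
  refine mul_le_mul_of_nonneg_left ?_ (by positivity)
  rw [← cos_abs (p * w.arg), abs_mul, abs_of_pos hp]
  have := arg_lt hw
  refine cos_le_cos_of_nonneg_of_le_pi (by positivity) (by nlinarith [pi_pos]) (by gcongr)

/-- M. Riesz type inequality, `1 < p < 2` -/
theorem riesz {p : ℝ} (hp : 1 < p) (hp1 : p < 2) : ∃ A B : ℝ, 0 < A ∧ 0 < B ∧
    ∀ w : ℂ, 0 < w.re → ‖w‖ ^ p ≤ A * w.re ^ p - B * (w ^ (p : ℂ)).re := by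
  have pp := pi_pos
  obtain ⟨θ, hθ⟩ : ∃ θ, θ = π * (1 + p) / (4 * p) := ⟨_, rfl⟩
  have e1 : p * θ = π * (1 + p) / 4 := by rw [hθ]; field_simp
  have t0 : 0 < θ := by rw [hθ]; positivity
  have t1 : θ < π / 2 := by rw [hθ, div_lt_div_iff₀ (by positivity) (by positivity)]; nlinarith
  have c1 : 0 < cos θ := cos_pos_of_mem_Ioo ⟨by linarith, t1⟩
  have c2 : cos (p * θ) < 0 := cos_neg_of_pi_div_two_lt_of_lt (by nlinarith) (by nlinarith)
  refine ⟨(1 + (-cos (p * θ))⁻¹) / cos θ ^ p, (-cos (p * θ))⁻¹, ?_, ?_, fun w hw => ?_⟩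
  · have : 0 < (-cos (p * θ))⁻¹ := inv_pos.mpr (by linarith)
    positivity
  · exact inv_pos.mpr (by linarith)
  have hw0 : w ≠ 0 := by rintro rfl; simp at hw
  have b1 : 0 < (-cos (p * θ))⁻¹ := inv_pos.mpr (by linarith)
  have e2 : w.re ^ p = ‖w‖ ^ p * cos w.arg ^ p := by
    rw [← mul_rpow (norm_nonneg _) ?_, Complex.norm_mul_cos_arg]
    rw [← cos_abs]
    have := arg_lt hw
    exact (cos_pos_of_mem_Ioo ⟨by linarith [abs_nonneg w.arg], this⟩).le
  rw [re_cpow w hw0, e2]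
  have a1 := arg_lt hw
  have key : 1 ≤ (1 + (-cos (p * θ))⁻¹) / cos θ ^ p * cos w.arg ^ p -
      (-cos (p * θ))⁻¹ * cos (p * w.arg) := by
    rw [← cos_abs w.arg, ← cos_abs (p * w.arg), abs_mul, abs_of_pos (by linarith : 0 < p)]
    have hs := abs_nonneg w.arg
    generalize |w.arg| = s at a1 hs
    rcases le_total θ s with h | h
    · have d1 : cos (p * s) ≤ cos (p * θ) := cos_le_cos_of_nonneg_of_le_pi (by positivity)
        (by nlinarith) (by gcongr)
      have d2 : 1 ≤ (-cos (p * θ))⁻¹ * (-cos (p * s)) := by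
        rw [inv_mul_eq_div, le_div_iff₀ (by linarith)]
        linarith
      have d3 : 0 ≤ (1 + (-cos (p * θ))⁻¹) / cos θ ^ p * cos s ^ p := by
        have : 0 ≤ cos s := cos_nonneg_of_neg_pi_div_two_le_of_le (by linarith) a1.le
        positivity
      linarith
    · have d1 : cos θ ≤ cos s := cos_le_cos_of_nonneg_of_le_pi hs (by linarith) h
      have d2 : cos θ ^ p ≤ cos s ^ p := by gcongr
      have d3 : (1 + (-cos (p * θ))⁻¹) ≤ (1 + (-cos (p * θ))⁻¹) / cos θ ^ p * cos s ^ p := by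
        rw [div_mul_eq_mul_div, le_div_iff₀ (by positivity)]
        gcongr
      have d4 : (-cos (p * θ))⁻¹ * cos (p * s) ≤ (-cos (p * θ))⁻¹ * 1 := by
        gcongr; exact cos_le_one _
      linarith
  have : 0 < ‖w‖ ^ p := by positivity
  nlinarith

/-- `v arg w ≤ (π/2) |w|` and `|w| / 2 - u √2/2 ≤ v arg w` -/
theorem varg {w : ℂ} (hw : 0 < w.re) :
    ‖w‖ / 2 - w.re ≤ w.im * w.arg ∧ w.im * w.arg ≤ π / 2 * ‖w‖ := by
  have a1 := arg_lt hw
  have hw0 : w ≠ 0 := by rintro rfl; simp at hw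
  have hn : 0 < ‖w‖ := norm_pos_iff.mpr hw0
  have e0 : w.im * w.arg = |w.im| * |w.arg| := by
    rw [← abs_mul, abs_of_nonneg]
    rcases le_total 0 w.im with h | h
    · exact mul_nonneg h (Complex.arg_nonneg_iff.mpr h)
    · rcases h.eq_or_lt with h | h
      · simp [h]
      · exact mul_nonneg_of_nonpos_of_nonpos h.le (Complex.arg_neg_iff.mpr h).le
  refine ⟨?_, ?_⟩
  · rw [e0]
    rcases le_total |w.im| w.re with h | h
    · have h1 : ‖w‖ ≤ 2 * w.re := by
        refine (Complex.norm_le_abs_re_add_abs_im w).trans ?_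
        rw [abs_of_pos hw]; linarith
      have : 0 ≤ |w.im| * |w.arg| := by positivity
      linarith
    · have e1 : |w.im| = ‖w‖ * sin |w.arg| := by
        rw [← Complex.norm_mul_sin_arg w, abs_mul, abs_of_pos hn]
        congr 1
        rw [← abs_sin_eq_sin_abs_of_abs_le_pi (by linarith [pi_pos])]
      have e2 : sin |w.arg| ≤ |w.arg| := sin_le (abs_nonneg _)
      have e3 : ‖w‖ ^ 2 ≤ 2 * |w.im| ^ 2 := by
        rw [Complex.sq_norm, Complex.normSq_apply, sq_abs]
        nlinarith [abs_nonneg w.im, sq_abs w.im]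
      have e4 : |w.im| ≤ ‖w‖ * |w.arg| := by
        rw [e1]; gcongr
      nlinarith [abs_nonneg w.im, abs_nonneg w.arg]
  · rw [e0]
    have := Complex.abs_im_le_norm w
    nlinarith [abs_nonneg w.im, abs_nonneg w.arg, pi_pos]

/-- `log (|w|/u) u ≤ |w|/4 + u` -/
theorem ulog {w : ℂ} (hw : 0 < w.re) :
    w.re * log w.re ≤ w.re * log ‖w‖ ∧ w.re * log ‖w‖ ≤ w.re * log w.re + ‖w‖ / 4 + w.re := by
  have hw0 : w ≠ 0 := by rintro rfl; simp at hw
  have hn : 0 < ‖w‖ := norm_pos_iff.mpr hw0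
  refine ⟨?_, ?_⟩
  · have : log w.re ≤ log ‖w‖ := log_le_log hw ((le_abs_self _).trans (Complex.abs_re_le_norm w))
    gcongr
  · have h1 := log_le_sub_one_of_pos (show 0 < ‖w‖ / w.re / 4 by positivity)
    rw [log_div (by positivity) (by norm_num), log_div hn.ne' hw.ne'] at h1
    have h2 : log 4 ≤ 2 := by
      rw [show (4 : ℝ) = 2 ^ 2 by norm_num, log_pow]
      have := log_two_lt_d9
      push_cast; linarith
    have h3 : w.re * log ‖w‖ ≤ w.re * (log w.re + ‖w‖ / w.re / 4 + 1) := by gcongr; linarith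
    have h4 : w.re * (log w.re + ‖w‖ / w.re / 4 + 1) = w.re * log w.re + ‖w‖ / 4 + w.re := by
      field_simp
    linarith

theorem re_mul_log {w : ℂ} : (w * Complex.log w).re = w.re * log ‖w‖ - w.im * w.arg := by
  rw [Complex.mul_re, Complex.log_re, Complex.log_im]

end Pool.Agent.KS6_90.BP
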