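import Pool.Agent.KS6_90.BP.Ineq

set_option autoImplicit false

namespace Pool.Agent.KS6_90.BP
open Real MeasureTheory

variable {F : ℝ → ℂ}

theorem ii {g : ℝ → ℝ} (hg : Continuous g) : IntervalIntegrable g volume 0 1 :=
  hg.intervalIntegrable _ _

theorem imono {g h : ℝ → ℝ} (hg : Continuous g) (hh : Continuous h) (H : ∀ t, g t ≤ h t) :
    ∫ t in (0 : ℝ)..1, g t ≤ ∫ t in (0 : ℝ)..1, h t :=
  intervalIntegral.integral_mono_on zero_le_one (ii hg) (ii hh) fun t _ => H t

theorem cnorm (hF : Continuous F) (hp : ∀ t, 0 < (F t).re) (p : ℝ) :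
    Continuous fun t => ‖F t‖ ^ p :=
  hF.norm.rpow_const fun t => Or.inl (norm_pos_iff.mpr (by rintro h; simpa [h] using hp t)).ne'

theorem cre (hF : Continuous F) (hp : ∀ t, 0 < (F t).re) (p : ℝ) :
    Continuous fun t => (F t).re ^ p :=
  (Complex.continuous_re.comp hF).rpow_const fun t => Or.inl (hp t).ne'

theorem ccpow (hF : Continuous F) (hp : ∀ t, 0 < (F t).re) (p : ℂ) :
    Continuous fun t => (F t ^ p).re :=
  Complex.continuous_re.comp (hF.cpow continuous_const fun t => Or.inl (hp t))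

theorem clog (hF : Continuous F) (hp : ∀ t, 0 < (F t).re) :
    Continuous fun t => (F t * Complex.log (F t)).re :=
  Complex.continuous_re.comp (hF.mul (hF.clog fun t => Or.inl (hp t)))

theorem cur (hF : Continuous F) : Continuous fun t => (F t).re := Complex.continuous_re.comp hF

theorem culog (hF : Continuous F) (hp : ∀ t, 0 < (F t).re) :
    Continuous fun t => (F t).re * log (F t).re :=
  (cur hF).mul ((cur hF).log fun t => (hp t).ne')

/-- upper bound, `p ≥ 2` -/
theorem int_up2 (hF : Continuous F) (hp : ∀ t, 0 < (F t).re) {p L : ℝ} {m : ℕ} (hL : 0 < L)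
    (h2 : 2 ≤ p) (hm : p ≤ 2 * m) :
    ∫ t in (0 : ℝ)..1, ‖F t‖ ^ p ≤ L ^ (p - 2) * (∫ t in (0 : ℝ)..1, ‖F t‖ ^ 2) +
      L ^ (p - 2 * m) * ∫ t in (0 : ℝ)..1, ‖F t‖ ^ (2 * m) := by
  have c := hF.norm
  rw [← intervalIntegral.integral_const_mul, ← intervalIntegral.integral_const_mul,
    ← intervalIntegral.integral_add (ii (by fun_prop)) (ii (by fun_prop))]
  refine imono (cnorm hF hp p) (by fun_prop) fun t => ?_
  have h0 : 0 < ‖F t‖ := norm_pos_iff.mpr (by rintro h; simpa [h] using hp t)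
  have := split_le h0 hL h2 hm
  rw [show ‖F t‖ ^ (2 : ℝ) = ‖F t‖ ^ 2 by rw [← rpow_natCast]; norm_num,
    show ‖F t‖ ^ (2 * m : ℝ) = ‖F t‖ ^ (2 * m) by rw [← rpow_natCast]; push_cast; rfl] at this
  exact this

/-- upper bound, `1 < p < 2` -/
theorem int_up1 {p : ℝ} (h1 : 1 < p) (h2 : p < 2) : ∃ A, 0 < A ∧ ∀ (F : ℝ → ℂ), Continuous F →
    (∀ t, 0 < (F t).re) → ∫ t in (0 : ℝ)..1, (F t).re = 1 →
    0 ≤ ∫ t in (0 : ℝ)..1, (F t ^ (p : ℂ)).re → ∀ L, 0 < L →
    ∫ t in (0 : ℝ)..1, ‖F t‖ ^ p ≤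
      A * (L ^ (p - 1) + L ^ (p - 2) * ∫ t in (0 : ℝ)..1, ‖F t‖ ^ 2) := by
  obtain ⟨A, B, A0, B0, h⟩ := riesz h1 h2
  refine ⟨A, A0, fun F hF hp e1 e2 L hL => ?_⟩
  have c := hF.norm
  have c1 := cur hF
  have c2 := ccpow hF hp p
  have c3 := cre hF hp p
  calc ∫ t in (0 : ℝ)..1, ‖F t‖ ^ p
      ≤ ∫ t in (0 : ℝ)..1, (A * (F t).re ^ p - B * (F t ^ (p : ℂ)).re) :=
        imono (cnorm hF hp p) (by fun_prop) fun t => h _ (hp t)
    _ = A * (∫ t in (0 : ℝ)..1, (F t).re ^ p) - B * ∫ t in (0 : ℝ)..1, (F t ^ (p : ℂ)).re := by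
        rw [intervalIntegral.integral_sub (ii (by fun_prop)) (ii (by fun_prop)),
          intervalIntegral.integral_const_mul, intervalIntegral.integral_const_mul]
    _ ≤ A * (∫ t in (0 : ℝ)..1, (F t).re ^ p) := by nlinarith
    _ ≤ A * (∫ t in (0 : ℝ)..1, (L ^ (p - 1) * (F t).re + L ^ (p - 2) * ‖F t‖ ^ 2)) := by
        refine mul_le_mul_of_nonneg_left (imono c3 (by fun_prop) fun t => ?_) A0.le
        have := split_le (hp t) hL h1.le h2.le
        rw [rpow_one, show (F t).re ^ (2 : ℝ) = (F t).re ^ 2 by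
          rw [← rpow_natCast]; norm_num] at this
        refine this.trans ?_
        gcongr
        · exact (hp t).le
        · exact (le_abs_self _).trans (Complex.abs_re_le_norm _)
    _ = _ := by
        rw [intervalIntegral.integral_add (ii (by fun_prop)) (ii (by fun_prop)),
          intervalIntegral.integral_const_mul, intervalIntegral.integral_const_mul, e1, mul_one]

/-- `p < 1` -/
theorem int_up0 (hF : Continuous F) (hp : ∀ t, 0 < (F t).re) {p : ℝ} (h0 : 0 < p) (h1 : p < 1)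
    (e2 : ∫ t in (0 : ℝ)..1, (F t ^ (p : ℂ)).re = 1) :
    ∫ t in (0 : ℝ)..1, ‖F t‖ ^ p ≤ 1 / cos (p * (π / 2)) := by
  have c0 : 0 < cos (p * (π / 2)) := cos_pos_of_mem_Ioo ⟨by nlinarith [pi_pos], by
    nlinarith [pi_pos]⟩
  rw [le_div_iff₀ c0, mul_comm, ← intervalIntegral.integral_const_mul]
  have c1 := cnorm hF hp p
  exact (imono (by fun_prop) (ccpow hF hp p) fun t => kolm h0 h1 (hp t)).trans e2.le

/-- `p = 1`, the Zygmund identity -/
theorem int_log (hF : Continuous F) (hp : ∀ t, 0 < (F t).re)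
    (e1 : ∫ t in (0 : ℝ)..1, (F t).re = 1)
    (e2 : ∫ t in (0 : ℝ)..1, (F t * Complex.log (F t)).re = 0) :
    ∫ t in (0 : ℝ)..1, ‖F t‖ ≤ 4 * (∫ t in (0 : ℝ)..1, (F t).re * log (F t).re) + 8 ∧
    ∫ t in (0 : ℝ)..1, (F t).re * log (F t).re ≤ π / 2 * ∫ t in (0 : ℝ)..1, ‖F t‖ := by
  have c := hF.norm
  have c1 := cur hF
  have c2 := clog hF hp
  have c3 := culog hF hp
  constructor
  · have h := imono (g := fun t => ‖F t‖) (h := fun t => 4 * ((F t).re * log (F t).re) +
      8 * (F t).re + (-4) * (F t * Complex.log (F t)).re) (by fun_prop) (by fun_prop) fun t => by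
        have h1 := (varg (hp t)).1
        have h2 := (ulog (hp t)).2
        have h3 := re_mul_log (w := F t)
        linarith
    rw [intervalIntegral.integral_add (ii (by fun_prop)) (ii (by fun_prop)),
      intervalIntegral.integral_add (ii (by fun_prop)) (ii (by fun_prop)),
      intervalIntegral.integral_const_mul, intervalIntegral.integral_const_mul,
      intervalIntegral.integral_const_mul, e1, e2] at h
    linarith
  · have h := imono (g := fun t => (F t).re * log (F t).re) (h := fun t => π / 2 * ‖F t‖ +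
      (F t * Complex.log (F t)).re) (by fun_prop) (by fun_prop) fun t => by
        have h1 := (varg (hp t)).2
        have h2 := (ulog (hp t)).1
        have h3 := re_mul_log (w := F t)
        linarith
    rw [intervalIntegral.integral_add (ii (by fun_prop)) (ii (by fun_prop)),
      intervalIntegral.integral_const_mul, e2] at h
    linarith

theorem int_ulog (hF : Continuous F) (hp : ∀ t, 0 < (F t).re)
    (e1 : ∫ t in (0 : ℝ)..1, (F t).re = 1) {L : ℝ} (hL : 0 < L) :
    ∫ t in (0 : ℝ)..1, (F t).re * log (F t).re ≤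
      log L + (∫ t in (0 : ℝ)..1, ‖F t‖ ^ 2) / L := by
  have c := hF.norm
  have c1 := cur hF
  have h := imono (g := fun t => (F t).re * log (F t).re) (h := fun t => log L * (F t).re +
    ‖F t‖ ^ 2 / L) (culog hF hp) (by fun_prop) fun t => by
      refine (tlogt_up (hp t) hL).trans ?_
      gcongr
      · exact (hp t).le
      · exact (le_abs_self _).trans (Complex.abs_re_le_norm _)
  rw [intervalIntegral.integral_add (ii (by fun_prop)) (ii (by fun_prop)),
    intervalIntegral.integral_const_mul, intervalIntegral.integral_div, e1, mul_one] at h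
  exact h

/-- lower bounds; `s = ∫ u ^ 2` -/
theorem int_lo2 (hF : Continuous F) (hp : ∀ t, 0 < (F t).re)
    (e1 : ∫ t in (0 : ℝ)..1, (F t).re = 1) {p L : ℝ} (hL : 0 < L) (h2 : 2 ≤ p) :
    L ^ (p - 2) * ((∫ t in (0 : ℝ)..1, (F t).re ^ 2) - L) ≤ ∫ t in (0 : ℝ)..1, ‖F t‖ ^ p := by
  have c1 := cur hF
  have h := imono (g := fun t => L ^ (p - 2) * ((F t).re ^ 2 - L * (F t).re))
    (h := fun t => ‖F t‖ ^ p) (by fun_prop) (cnorm hF hp p) fun t => by
      refine (low_ge (hp t) hL h2).trans ?_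
      exact rpow_le_rpow (hp t).le ((le_abs_self _).trans (Complex.abs_re_le_norm _)) (by linarith)
  rw [intervalIntegral.integral_const_mul, intervalIntegral.integral_sub (ii (by fun_prop))
    (ii (by fun_prop)), intervalIntegral.integral_const_mul, e1, mul_one] at h
  exact h

theorem int_lo1 (hF : Continuous F) (hp : ∀ t, 0 < (F t).re) {p L : ℝ} (hL : 0 < L)
    (h1 : 1 < p) (h2 : p ≤ 2) :
    L ^ (p - 2) * ((∫ t in (0 : ℝ)..1, (F t).re ^ 2) - (∫ t in (0 : ℝ)..1, ‖F t‖ ^ 4) / L ^ 2) ≤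
      ∫ t in (0 : ℝ)..1, ‖F t‖ ^ p := by
  have c1 := cur hF
  have c := hF.norm
  have h := imono (g := fun t => L ^ (p - 2) * ((F t).re ^ 2 - ‖F t‖ ^ 4 / L ^ 2))
    (h := fun t => ‖F t‖ ^ p) (by fun_prop) (cnorm hF hp p) fun t => by
      have e : (F t).re ≤ ‖F t‖ := (le_abs_self _).trans (Complex.abs_re_le_norm _)
      refine le_trans ?_ ((low_le (hp t) hL h2).trans (rpow_le_rpow (hp t).le e (by linarith)))
      have := (hp t).le
      gcongr
  rw [intervalIntegral.integral_const_mul, intervalIntegral.integral_sub (ii (by fun_prop))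
    (ii (by fun_prop)), intervalIntegral.integral_div] at h
  exact h

/-- lower bound for `∫ u log u`; `q2 = ∫ u ^ 2`, `∫ u ^ 3 ≤ q3`. -/
theorem int_loglow (hF : Continuous F) (hp : ∀ t, 0 < (F t).re)
    (e1 : ∫ t in (0 : ℝ)..1, (F t).re = 1) {s R : ℝ} (hs : 1 ≤ s) (hR : s < R) :
    -1 + log s * (4 * ((R + s) * (∫ t in (0 : ℝ)..1, (F t).re ^ 2) -
      (∫ t in (0 : ℝ)..1, ‖F t‖ ^ 3) - R * s) / (R - s) ^ 2) ≤
      ∫ t in (0 : ℝ)..1, (F t).re * log (F t).re := by
  have c1 := cur hF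
  have c := hF.norm
  have l0 : 0 ≤ log s := log_nonneg hs
  have hd : 0 < (R - s) ^ 2 := by nlinarith
  have h := imono (g := fun t => (-1) + log s * (4 * ((R + s) * (F t).re ^ 2 - ‖F t‖ ^ 3 - R * s *
    (F t).re) / (R - s) ^ 2)) (h := fun t => (F t).re * log (F t).re) (by fun_prop)
    (culog hF hp) fun t => by
      have e : (F t).re ≤ ‖F t‖ := (le_abs_self _).trans (Complex.abs_re_le_norm _)
      refine le_trans ?_ (tlogt_low (hp t) hs hR)
      have h3 : (F t).re ^ 3 ≤ ‖F t‖ ^ 3 := by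
        have := (hp t).le
        gcongr
      have h4 : (F t).re * (4 * (((F t).re - s) * (R - (F t).re)) / (R - s) ^ 2) =
        4 * ((R + s) * (F t).re ^ 2 - (F t).re ^ 3 - R * s * (F t).re) / (R - s) ^ 2 := by ring
      rw [h4]
      gcongr
  rw [intervalIntegral.integral_add (ii (by fun_prop)) (ii (by fun_prop)),
    intervalIntegral.integral_const_mul, intervalIntegral.integral_div,
    intervalIntegral.integral_const_mul,
    intervalIntegral.integral_sub (ii (by fun_prop)) (ii (by fun_prop)),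
    intervalIntegral.integral_sub (ii (by fun_prop)) (ii (by fun_prop)),
    intervalIntegral.integral_const_mul, intervalIntegral.integral_const_mul, e1] at h
  simpa using h

end Pool.Agent.KS6_90.BP
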