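import Pool.Graph.R_pool_sql_team_39128cda.H.MP_034cab_an.C
import Pool.Agent.KS6_90.BP.Int

set_option autoImplicit false

namespace Pool.Agent.KS6_90.BP
open Finset Filter Topology Real MeasureTheory Pool.Agent.H.MP_f44585_an
  Pool.Agent.H.MP_0447a2_lc Pool.Agent.H.MP_034cab_an ComplexConjugate

theorem cavg {E : Type*} [NormedAddCommGroup E] [NormedSpace ℝ E] (g : ℂ → E) (r : ℝ) :
    circleAverage g 0 r = ∫ t in (0 : ℝ)..1, g (r * ee t) := by
  have h := intervalIntegral.smul_integral_comp_mul_left (a := 0) (b := 1)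
    (fun θ => g (circleMap 0 r θ)) (2 * π)
  rw [mul_zero, mul_one] at h
  rw [circleAverage_def, ← h, smul_smul, inv_mul_cancel₀ (by positivity), one_smul]
  congr 1
  ext t
  rw [circleMap, zero_add, ee]
  congr 3
  push_cast
  ring

theorem mean_hol {G : ℂ → ℂ} (hG : DifferentiableOn ℂ G (Metric.ball 0 1)) {r : ℝ} (r0 : 0 ≤ r)
    (r1 : r < 1) : ∫ t in (0 : ℝ)..1, (G (r * ee t)).re = (G 0).re := by
  have e1 : circleAverage G 0 r = G 0 := DiffContOnCl.circleAverage (by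
    rw [abs_of_nonneg r0]
    exact (hG.mono (Metric.closedBall_subset_ball r1)).diffContOnCl_ball subset_rfl)
  have c : Continuous fun t => G (r * ee t) := by
    refine continuous_iff_continuousAt.mpr fun t => ?_
    refine ContinuousAt.comp (f := fun t => (r : ℂ) * ee t) (g := G) ?_
      (continuous_const.mul ee_cont).continuousAt
    refine (hG.continuousOn.continuousAt (Metric.isOpen_ball.mem_nhds ?_))
    rw [mem_ball_zero_iff, norm_mul, ee_norm, mul_one, Complex.norm_real,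
      Real.norm_of_nonneg r0]
    exact r1
  rw [cavg] at e1
  rw [← int_re c, e1]

noncomputable def pw (a : ℕ → ℂ) : ℕ → ℕ → ℂ
  | 0 => Pi.single 0 1
  | m + 1 => CP (pw a m) a

variable {a : ℕ → ℂ}

theorem pw_rd (h : Rd a) (m : ℕ) : Rd (pw a m) := by
  induction m with
  | zero =>
    intro r _ _
    refine summable_of_ne_finset_zero (s := {0}) fun n hn => ?_
    simp [pw, notMem_singleton.mp hn]
  | succ m ih => exact ih.cp h

theorem pw_ps (h : Rd a) (m : ℕ) {z : ℂ} (hz : ‖z‖ < 1) : PS (pw a m) z = PS a z ^ m := by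
  induction m with
  | zero =>
    rw [PS, tsum_eq_single 0 fun n hn => by simp [pw, hn]]
    simp [pw]
  | succ m ih => rw [pw, (pw_rd h m).mul h hz, ih, pow_succ]

theorem pw_zero (h0 : a 0 = 1) (m : ℕ) : pw a m 0 = 1 := by
  induction m with
  | zero => simp [pw]
  | succ m ih => simp [pw, CP, ih, h0]

theorem pw_dd (h : Rd a) (m : ℕ) {z : ℂ} (hz : ‖z‖ < 1) :
    PS (DD (pw a m)) z = m * PS a z ^ (m - 1) * PS (DD a) z := by
  refine ((pw_rd h m).der hz).unique (((h.der hz).pow m).congr_of_eventuallyEq ?_)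
  filter_upwards [Metric.isOpen_ball.mem_nhds (mem_ball_zero_iff.mpr hz)] with w hw
  exact pw_ps h m (mem_ball_zero_iff.mp hw)

theorem sq_lt {x : ℝ} (x1 : x < 1) (t : ℝ) : ‖√x * ee t‖ < 1 := by
  rwa [norm_mul, ee_norm, mul_one, Complex.norm_real, Real.norm_of_nonneg (sqrt_nonneg x),
      Real.sqrt_lt' one_pos, one_pow]

/-- the moments -/
noncomputable def Ph (a : ℕ → ℂ) (m : ℕ) (x : ℝ) : ℝ :=
  ∫ t in (0 : ℝ)..1, ‖PS a (√x * ee t)‖ ^ (2 * m)

theorem self_conj {b : ℕ → ℂ} (x : ℝ) : (PS (fun n => b n * conj (b n)) x).re =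
    ∑' n, ‖b n‖ ^ 2 * x ^ n := by
  rw [← Complex.ofReal_re (∑' _, _), Complex.ofReal_tsum]
  refine congrArg _ (tsum_congr fun n => ?_)
  simp only [Complex.mul_conj, Complex.normSq_eq_norm_sq]
  push_cast
  rfl

theorem Ph_eq (h : Rd a) (m : ℕ) {x : ℝ} (x0 : 0 ≤ x) (x1 : x < 1) :
    Ph a m x = (PS (fun n => pw a m n * conj (pw a m n)) x).re := by
  have c := (pw_rd h m).cont x0 x1
  rw [← (pw_rd h m).pars (pw_rd h m) x0 x1, int_re (by fun_prop), Ph]
  refine intervalIntegral.integral_congr fun t _ => ?_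
  simp only [pw_ps h m (sq_lt x1 t), Complex.mul_conj, Complex.normSq_eq_norm_sq,
    Complex.ofReal_re, norm_pow, ← pow_mul]
  rw [mul_comm 2 m]

theorem Ph_nonneg (m : ℕ) (x : ℝ) : 0 ≤ Ph a m x :=
  intervalIntegral.integral_nonneg zero_le_one fun _ _ => by positivity

theorem Ph_mono (h : Rd a) (m : ℕ) {y x : ℝ} (y0 : 0 ≤ y) (yx : y ≤ x) (x1 : x < 1) :
    Ph a m y ≤ Ph a m x := by
  have s : ∀ x : ℝ, 0 ≤ x → x < 1 → Summable fun n => ‖pw a m n‖ ^ 2 * x ^ n := fun x x0 x1 => by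
    simpa [sq] using (pw_rd h m).hp (pw_rd h m) x x0 x1
  rw [Ph_eq h m y0 (yx.trans_lt x1), Ph_eq h m (y0.trans yx) x1, self_conj, self_conj]
  exact (s y y0 (yx.trans_lt x1)).tsum_le_tsum (fun n => by gcongr) (s x (y0.trans yx) x1)

theorem cmp2 {f f' B B' : ℝ → ℝ} {X : ℝ} (hX : X < 1) (h0 : f 0 ≤ B 0)
    (hf : ∀ x, 0 ≤ x → x < 1 → HasDerivAt f (f' x) x)
    (hB : ∀ x, 0 ≤ x → x < 1 → HasDerivAt B (B' x) x) (h : ∀ x, 0 ≤ x → x ≤ X → f' x ≤ B' x)
    {x : ℝ} (x0 : 0 ≤ x) (x1 : x ≤ X) : f x ≤ B x :=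
  image_le_of_deriv_right_le_deriv_boundary (a := 0) (b := x)
    (fun y hy => (hf y hy.1 (by linarith [hy.2])).continuousAt.continuousWithinAt)
    (fun y hy => (hf y hy.1 (by linarith [hy.2])).hasDerivWithinAt) h0
    (fun y hy => (hB y hy.1 (by linarith [hy.2])).continuousAt.continuousWithinAt)
    (fun y hy => (hB y hy.1 (by linarith [hy.2])).hasDerivWithinAt)
    (fun y hy => h y hy.1 (by linarith [hy.2])) ⟨x0, le_rfl⟩

theorem hardy {b : ℕ → ℂ} (h : Rd b) {K X : ℝ} (X0 : 0 ≤ X) (X1 : X < 1)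
    (e5 : ∀ y : ℝ, 0 ≤ y → y ≤ X → (PS (fun n => DD b n * conj (DD b n)) y).re ≤
      K / (1 - y) ^ 2) :
    (PS (fun n => b n * conj (b n)) X).re ≤ ‖b 0‖ ^ 2 - K * log (1 - X) := by
  have e1 := h.hp h
  obtain ⟨e, he⟩ : ∃ e, e = fun n => b n * conj (b n) := ⟨_, rfl⟩
  have e2 : DD (fun n => n * e n) = fun n => DD b n * conj (DD b n) := by
    ext n
    simp only [he, DD, map_mul, map_add, map_natCast, map_one]
    push_cast
    ring
  rw [← he] at e1 ⊢
  rw [← e2] at e5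
  have e3 : Rd fun n => n * e n := fun r r0 r1 => (summable_nat_add_iff 1).mp
    (((e1.dd r r0 r1).mul_right r).congr fun n => by simp only [DD, pow_succ]; push_cast; ring)
  have e4 : ∀ y : ℝ, 0 ≤ y → y < 1 → PS (fun n => n * e n) y = y * PS (DD e) y := fun y y0 y1 => by
    rw [PS, (e3.sum (by rwa [Complex.norm_real, Real.norm_of_nonneg y0])).of_norm.tsum_eq_zero_add,
      PS, ← tsum_mul_left]
    simp only [Nat.cast_zero, zero_mul, zero_add, DD]
    exact tsum_congr fun n => by push_cast; ring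
  have e6 : ∀ y : ℝ, 0 ≤ y → y ≤ X → (PS (fun n => n * e n) y).re ≤ K * ((1 - y)⁻¹ - 1) :=
    fun y y0 y1 => cmp2 X1 (B := fun y => K * ((1 - y)⁻¹ - 1)) (by simp [ps0]) e3.derr
      (fun z z0 z1 => by
      have := ((((hasDerivAt_id z).const_sub 1).inv (sub_pos.mpr z1).ne').sub_const 1).const_mul K
      exact this.congr_deriv (by simp only [id]; ring)) e5 y0 y1
  have e7 : ∀ y : ℝ, 0 ≤ y → y ≤ X → (PS (DD e) y).re ≤ K / (1 - y) := fun y y0 y1 => by
    rcases y0.eq_or_lt with rfl | y2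
    · have := e5 0 le_rfl X0
      simpa [ps0, DD] using this
    have := e6 y y0 y1
    rw [e4 y y0 (y1.trans_lt X1), Complex.re_ofReal_mul] at this
    refine le_of_mul_le_mul_left (this.trans (le_of_eq ?_)) y2
    have := (sub_pos.mpr (y1.trans_lt X1)).ne'
    field_simp
    ring
  refine cmp2 X1 (B := fun y => ‖b 0‖ ^ 2 - K * log (1 - y)) ?_ e1.derr
    (fun z z0 z1 => ?_) e7 X0 le_rfl
  · simp [ps0, he, Complex.mul_conj, Complex.normSq_eq_norm_sq]
    rw [← Complex.ofReal_pow, Complex.ofReal_re]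
  have := ((((hasDerivAt_id z).const_sub 1).log (sub_pos.mpr z1).ne').const_mul
    K).const_sub (‖b 0‖ ^ 2)
  exact this.congr_deriv (by simp only [id]; ring)

/-- the moment recursion -/
theorem Ph_step (h : Rd a) (h0 : a 0 = 1) {C : ℝ}
    (hB : ∀ z, ‖z‖ < 1 → (1 - ‖z‖ ^ 2) * ‖PS (DD a) z‖ ≤ C) (m : ℕ) {x : ℝ} (x0 : 0 ≤ x)
    (x1 : x < 1) :
    Ph a (m + 1) x ≤ 1 - (m + 1) ^ 2 * C ^ 2 * Ph a m x * log (1 - x) := by
  rw [Ph_eq h (m + 1) x0 x1]
  have := hardy (pw_rd h (m + 1)) (K := (m + 1) ^ 2 * C ^ 2 * Ph a m x) x0 x1 fun y y0 yx => ?_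
  · rwa [pw_zero h0, norm_one, one_pow] at this
  have y1 := yx.trans_lt x1
  have c := h.cont y0 y1
  have c1 := (pw_rd h (m + 1)).dd.cont y0 y1
  rw [← (pw_rd h (m + 1)).dd.pars (pw_rd h (m + 1)).dd y0 y1, int_re (by fun_prop)]
  calc _ ≤ ∫ t in (0 : ℝ)..1, (m + 1) ^ 2 * C ^ 2 / (1 - y) ^ 2 * ‖PS a (√y * ee t)‖ ^ (2 * m) := by
        refine imono (by fun_prop) (by fun_prop) fun t => ?_
        have hz := sq_lt y1 t
        have d2 := hB _ hz
        have b1 : ‖√y * ee t‖ ^ 2 = y := by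
          rw [norm_mul, ee_norm, mul_one, Complex.norm_real, Real.norm_of_nonneg (sqrt_nonneg y),
            Real.sq_sqrt y0]
        rw [b1] at d2
        have y2 : 0 < 1 - y := by linarith
        have d3 : ‖PS (DD a) (√y * ee t)‖ ^ 2 ≤ C ^ 2 / (1 - y) ^ 2 := by
          rw [le_div_iff₀ (by positivity), ← mul_pow, mul_comm]
          exact pow_le_pow_left₀ (by positivity) d2 2
        rw [pw_dd h (m + 1) hz, Complex.mul_conj, Complex.normSq_eq_norm_sq, Complex.ofReal_re,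
          norm_mul, norm_mul, norm_pow, Complex.norm_natCast, mul_pow, mul_pow, ← pow_mul,
          Nat.add_sub_cancel, mul_comm m 2]
        push_cast
        calc _ ≤ ((m : ℝ) + 1) ^ 2 * ‖PS a (√y * ee t)‖ ^ (2 * m) * (C ^ 2 / (1 - y) ^ 2) := by
              gcongr
          _ = _ := by ring
    _ = (m + 1) ^ 2 * C ^ 2 * Ph a m y / (1 - y) ^ 2 := by
        rw [intervalIntegral.integral_const_mul, Ph]; ring
    _ ≤ _ := by
        have := Ph_mono h m y0 yx x1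
        gcongr

/-- growth of the even moments, with absolute constants -/
theorem Ph_growth (m : ℕ) : ∃ A, 0 < A ∧ ∀ (C : ℝ) (a : ℕ → ℂ), Rd a → a 0 = 1 →
    (∀ z, ‖z‖ < 1 → 0 ≤ (PS a z).re) → (∀ z, ‖z‖ < 1 → (1 - ‖z‖ ^ 2) * ‖PS (DD a) z‖ ≤ C) →
    ∀ x, 0 ≤ x → x < 1 → Ph a (m + 1) x ≤ A * (1 - C ^ 2 * log (1 - x)) ^ ((m : ℝ) + 1 / 2) := by
  induction m with
  | zero =>
    refine ⟨3, by positivity, fun C a h h0 hp hB x x0 x1 => ?_⟩
    have l0 : 0 ≤ -(C ^ 2 * log (1 - x)) := by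
      have := log_nonpos (by linarith : 0 ≤ 1 - x) (by linarith)
      nlinarith [sq_nonneg C]
    have l1 : 1 ≤ 1 - C ^ 2 * log (1 - x) := by linarith
    have s0 : 0 < √(1 - C ^ 2 * log (1 - x)) := sqrt_pos.mpr (by linarith)
    have := second h h0 hp hB x0 x1 s0
    rw [Ph_eq h _ x0 x1, self_conj]
    have e : pw a (0 + 1) = a := by
      ext n
      simp only [pw, CP]
      rw [sum_eq_single (0, n)] <;> simp
      intro k l hk h1
      rcases Nat.eq_zero_or_pos k with rfl | hk0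
      · simp at hk; exact absurd hk (h1 rfl)
      · left; simp [hk0.ne']
    rw [e]
    refine this.trans ?_
    rw [Nat.cast_zero, zero_add, ← sqrt_eq_rpow]
    have e2 : (1 - 2 * C ^ 2 * log (1 - x)) / √(1 - C ^ 2 * log (1 - x)) ≤
        2 * √(1 - C ^ 2 * log (1 - x)) := by
      rw [div_le_iff₀ s0, mul_assoc 2 √_ √_, mul_self_sqrt (by linarith)]
      nlinarith [sq_nonneg C]
    linarith
  | succ m ih =>
    obtain ⟨A, A0, hA⟩ := ih
    refine ⟨1 + ((m : ℝ) + 2) ^ 2 * A, by positivity, fun C a h h0 hp hB x x0 x1 => ?_⟩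
    have l0 : 0 ≤ -(C ^ 2 * log (1 - x)) := by
      have := log_nonpos (by linarith : 0 ≤ 1 - x) (by linarith)
      nlinarith [sq_nonneg C]
    have h1 := Ph_step h h0 hB (m + 1) x0 x1
    have h2 := hA C a h h0 hp hB x x0 x1
    obtain ⟨ℓ, hℓ⟩ : ∃ ℓ, ℓ = 1 - C ^ 2 * log (1 - x) := ⟨_, rfl⟩
    have l1 : 1 ≤ ℓ := by linarith
    rw [← hℓ] at h2 ⊢
    have h3 : 1 ≤ ℓ ^ ((m : ℝ) + 1 / 2) := one_le_rpow l1 (by positivity)
    have h4 : ℓ ^ (((m + 1 : ℕ) : ℝ) + 1 / 2) = ℓ ^ ((m : ℝ) + 1 / 2) * ℓ := by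
      push_cast
      rw [show (m : ℝ) + 1 + 1 / 2 = (m + 1 / 2) + 1 by ring, rpow_add_one (by linarith)]
    rw [h4]
    have h1' : Ph a (m + 1 + 1) x ≤ 1 + ((m : ℝ) + 2) ^ 2 * Ph a (m + 1) x * (ℓ - 1) := by
      refine h1.trans (le_of_eq ?_)
      rw [hℓ]; push_cast; ring
    have h5 : ((m : ℝ) + 2) ^ 2 * Ph a (m + 1) x * (ℓ - 1) ≤
        ((m : ℝ) + 2) ^ 2 * (A * ℓ ^ ((m : ℝ) + 1 / 2)) * ℓ := by
      have := Ph_nonneg (a := a) (m + 1) x
      have h7 : ((m : ℝ) + 2) ^ 2 * Ph a (m + 1) x * (ℓ - 1) ≤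
        ((m : ℝ) + 2) ^ 2 * Ph a (m + 1) x * ℓ := by
          refine mul_le_mul_of_nonneg_left (by linarith) (by positivity)
      refine h7.trans ?_
      gcongr
    have h6 : 1 ≤ ℓ ^ ((m : ℝ) + 1 / 2) * ℓ := by nlinarith
    nlinarith

end Pool.Agent.KS6_90.BP
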