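import Pool.Agent.KS6_90.BP.Mom

set_option autoImplicit false

namespace Pool.Agent.KS6_90.BP
open Finset Filter Topology Real MeasureTheory Pool.Agent.H.MP_f44585_an
  Pool.Agent.H.MP_0447a2_lc Pool.Agent.H.MP_034cab_an ComplexConjugate

structure Good (C : ℝ) (a : ℕ → ℂ) : Prop where
  rd : Rd a
  one : a 0 = 1
  pos : ∀ z, ‖z‖ < 1 → 0 < (PS a z).re
  bl : ∀ z, ‖z‖ < 1 → (1 - ‖z‖ ^ 2) * ‖PS (DD a) z‖ ≤ C

noncomputable def el (C x : ℝ) : ℝ := 1 - C ^ 2 * log (1 - x)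

theorem el_one (C : ℝ) {x : ℝ} (x0 : 0 ≤ x) (x1 : x < 1) : 1 ≤ el C x := by
  have := log_nonpos (by linarith : 0 ≤ 1 - x) (by linarith)
  unfold el; nlinarith [sq_nonneg C]

variable {C : ℝ} {a : ℕ → ℂ}

theorem Good.diff (h : Good C a) : DifferentiableOn ℂ (PS a) (Metric.ball 0 1) := fun _ hz =>
  (h.rd.der (mem_ball_zero_iff.mp hz)).differentiableAt.differentiableWithinAt

theorem Good.ps0 (h : Good C a) : PS a 0 = 1 := by
  rw [Pool.Agent.H.MP_034cab_an.ps0, h.one]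

theorem Good.fpos (h : Good C a) {x : ℝ} (x1 : x < 1) (t : ℝ) : 0 < (PS a (√x * ee t)).re :=
  h.pos _ (sq_lt x1 t)

theorem Good.mre (h : Good C a) {x : ℝ} (x0 : 0 ≤ x) (x1 : x < 1) :
    ∫ t in (0 : ℝ)..1, (PS a (√x * ee t)).re = 1 := by
  rw [h.rd.mean x0 x1, h.one, Complex.one_re]

theorem sq1 {x : ℝ} (x1 : x < 1) : √x < 1 := by rwa [Real.sqrt_lt' one_pos, one_pow]

theorem Good.mpow (h : Good C a) (p : ℝ) {x : ℝ} (x1 : x < 1) :
    ∫ t in (0 : ℝ)..1, (PS a (√x * ee t) ^ (p : ℂ)).re = 1 := by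
  rw [mean_hol (G := fun z => PS a z ^ (p : ℂ)) ?_ (sqrt_nonneg x) (sq1 x1)]
  · simp [h.ps0]
  · exact h.diff.cpow (differentiableOn_const _) fun z hz =>
      Or.inl (h.pos z (mem_ball_zero_iff.mp hz))

theorem Good.mlog (h : Good C a) {x : ℝ} (x1 : x < 1) :
    ∫ t in (0 : ℝ)..1, (PS a (√x * ee t) * Complex.log (PS a (√x * ee t))).re = 0 := by
  rw [mean_hol (G := fun z => PS a z * Complex.log (PS a z)) ?_ (sqrt_nonneg x) (sq1 x1)]
  · simp [h.ps0]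
  · exact h.diff.mul (h.diff.clog fun z hz => Or.inl (h.pos z (mem_ball_zero_iff.mp hz)))

theorem Good.msq (h : Good C a) {x : ℝ} (x0 : 0 ≤ x) (x1 : x < 1) :
    ∫ t in (0 : ℝ)..1, (PS a (√x * ee t)).re ^ 2 =
      ((∫ t in (0 : ℝ)..1, ‖PS a (√x * ee t)‖ ^ 2) + 1) / 2 := by
  have c := h.rd.cont x0 x1
  have c1 := cur c
  have c2 : Continuous fun t => (PS a (√x * ee t) ^ 2).re := Complex.continuous_re.comp (c.pow 2)
  have c3 := c.norm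
  have e1 : ∫ t in (0 : ℝ)..1, (PS a (√x * ee t) ^ 2).re = 1 := by
    rw [mean_hol (G := fun z => PS a z ^ 2) (h.diff.pow 2) (sqrt_nonneg x) (sq1 x1)]
    simp [h.ps0]
  calc _ = ∫ t in (0 : ℝ)..1, (‖PS a (√x * ee t)‖ ^ 2 + (PS a (√x * ee t) ^ 2).re) / 2 := by
        refine intervalIntegral.integral_congr fun t _ => ?_
        have e := Complex.sq_norm (PS a (√x * ee t))
        rw [Complex.normSq_apply] at e
        simp only [e, sq (PS a (√x * ee t)), Complex.mul_re]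
        ring
    _ = _ := by
        rw [intervalIntegral.integral_div, intervalIntegral.integral_add (ii (by fun_prop))
          (ii (by fun_prop)), e1]

theorem Ph_up (m : ℕ) : ∃ A, 0 < A ∧ ∀ C a, Good C a → ∀ x, 0 ≤ x → x < 1 →
    ∫ t in (0 : ℝ)..1, ‖PS a (√x * ee t)‖ ^ (2 * (m + 1)) ≤ A * el C x ^ ((m : ℝ) + 1 / 2) := by
  obtain ⟨A, A0, hA⟩ := Ph_growth m
  exact ⟨A, A0, fun C a h x x0 x1 => hA C a h.rd h.one (fun z hz => (h.pos z hz).le) h.bl x x0 x1⟩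

theorem up_two : ∃ A, 0 < A ∧ ∀ C a, Good C a → ∀ x, 0 ≤ x → x < 1 →
    ∫ t in (0 : ℝ)..1, ‖PS a (√x * ee t)‖ ^ 2 ≤ A * el C x ^ (1 / 2 : ℝ) := by
  obtain ⟨A, A0, hA⟩ := Ph_up 0
  refine ⟨A, A0, fun C a h x x0 x1 => ?_⟩
  have := hA C a h x x0 x1
  simpa using this

/-- `p ≥ 2` -/
theorem up_ge {p : ℝ} (hp : 2 ≤ p) : ∃ A, 0 < A ∧ ∀ C a, Good C a → ∀ x, 0 ≤ x → x < 1 →
    ∫ t in (0 : ℝ)..1, ‖PS a (√x * ee t)‖ ^ p ≤ A * el C x ^ ((p - 1) / 2) := by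
  obtain ⟨A, A0, hA⟩ := up_two
  obtain ⟨B, B0, hB⟩ := Ph_up ⌈p / 2⌉₊
  refine ⟨A + B, by positivity, fun C a h x x0 x1 => ?_⟩
  have l1 := el_one C x0 x1
  have l0 : 0 < el C x := by linarith
  have h1 := hA C a h x x0 x1
  have h2 := hB C a h x x0 x1
  have h3 : p ≤ 2 * ((⌈p / 2⌉₊ + 1 : ℕ) : ℝ) := by
    have := Nat.le_ceil (p / 2)
    push_cast
    linarith
  refine (int_up2 (h.rd.cont x0 x1) (h.fpos x1) (L := el C x ^ (1 / 2 : ℝ)) (by positivity) hp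
    h3).trans ?_
  rw [add_mul]
  refine add_le_add ?_ ?_
  · refine (mul_le_mul_of_nonneg_left h1 (by positivity)).trans (le_of_eq ?_)
    rw [← rpow_mul l0.le, mul_left_comm, ← rpow_add l0]
    congr 2; ring
  · refine (mul_le_mul_of_nonneg_left h2 (by positivity)).trans (le_of_eq ?_)
    rw [← rpow_mul l0.le, mul_left_comm, ← rpow_add l0]
    congr 2; push_cast; ring

/-- `1 < p < 2` -/
theorem up_lt {p : ℝ} (hp : 1 < p) (hp2 : p < 2) : ∃ A, 0 < A ∧ ∀ C a, Good C a →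
    ∀ x, 0 ≤ x → x < 1 →
    ∫ t in (0 : ℝ)..1, ‖PS a (√x * ee t)‖ ^ p ≤ A * el C x ^ ((p - 1) / 2) := by
  obtain ⟨A, A0, hA⟩ := up_two
  obtain ⟨B, B0, hB⟩ := int_up1 hp hp2
  refine ⟨B * (1 + A), by positivity, fun C a h x x0 x1 => ?_⟩
  have l1 := el_one C x0 x1
  have l0 : 0 < el C x := by linarith
  have h1 := hA C a h x x0 x1
  refine (hB _ (h.rd.cont x0 x1) (h.fpos x1) (h.mre x0 x1) (by rw [h.mpow p x1]; exact zero_le_one)
    (el C x ^ (1 / 2 : ℝ)) (by positivity)).trans ?_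
  rw [mul_assoc, add_mul, one_mul]
  refine mul_le_mul_of_nonneg_left (add_le_add ?_ ?_) B0.le
  · refine le_of_eq ?_
    rw [← rpow_mul l0.le]
    congr 1; ring
  · refine (mul_le_mul_of_nonneg_left h1 (by positivity)).trans (le_of_eq ?_)
    rw [← rpow_mul l0.le, mul_left_comm, ← rpow_add l0]
    congr 2; ring

theorem up_gt {p : ℝ} (hp : 1 < p) : ∃ A, 0 < A ∧ ∀ C a, Good C a →
    ∀ x, 0 ≤ x → x < 1 →
    ∫ t in (0 : ℝ)..1, ‖PS a (√x * ee t)‖ ^ p ≤ A * el C x ^ ((p - 1) / 2) := by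
  rcases lt_or_ge p 2 with h | h
  · exact up_lt hp h
  · exact up_ge h

/-- `p = 1` -/
theorem up_one : ∃ A, 0 < A ∧ ∀ C a, Good C a → ∀ x, 0 ≤ x → x < 1 →
    ∫ t in (0 : ℝ)..1, ‖PS a (√x * ee t)‖ ≤ A * (1 + log (el C x)) := by
  obtain ⟨A, A0, hA⟩ := up_two
  refine ⟨8 + 4 * A, by positivity, fun C a h x x0 x1 => ?_⟩
  have l1 := el_one C x0 x1
  have l0 : 0 < el C x := by linarith
  have l2 : 0 ≤ log (el C x) := log_nonneg l1
  have h1 := hA C a h x x0 x1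
  have h2 := (int_log (h.rd.cont x0 x1) (h.fpos x1) (h.mre x0 x1) (h.mlog x1)).1
  have h3 := int_ulog (h.rd.cont x0 x1) (h.fpos x1) (h.mre x0 x1) (L := el C x ^ (1 / 2 : ℝ))
    (by positivity)
  rw [log_rpow l0] at h3
  have h4 : (∫ t in (0 : ℝ)..1, ‖PS a (√x * ee t)‖ ^ 2) / el C x ^ (1 / 2 : ℝ) ≤ A :=
    div_le_of_le_mul₀ (by positivity) A0.le h1
  nlinarith

/-- `p < 1` -/
theorem up_small {p : ℝ} (h0 : 0 < p) (h1 : p < 1) (h : Good C a) {x : ℝ} (x0 : 0 ≤ x)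
    (x1 : x < 1) :
    ∫ t in (0 : ℝ)..1, ‖PS a (√x * ee t)‖ ^ p ≤ 1 / cos (p * (π / 2)) :=
  int_up0 (h.rd.cont x0 x1) (h.fpos x1) h0 h1 (h.mpow p x1)

/-- lower bounds from a lower bound `c ℓ ^ (1/2)` for `∫ u ^ 2` -/
theorem lo_gt {p c : ℝ} (hp : 1 < p) (hc : 0 < c) : ∃ A, 0 < A ∧ ∀ C a, Good C a →
    ∀ x, 0 ≤ x → x < 1 → c * el C x ^ (1 / 2 : ℝ) ≤ ∫ t in (0 : ℝ)..1, (PS a (√x * ee t)).re ^ 2 →
    A * el C x ^ ((p - 1) / 2) ≤ ∫ t in (0 : ℝ)..1, ‖PS a (√x * ee t)‖ ^ p := by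
  rcases le_or_gt 2 p with h2 | h2
  · refine ⟨(c / 2) ^ (p - 1), by positivity, fun C a h x x0 x1 hq => ?_⟩
    have l1 := el_one C x0 x1
    have l0 : 0 < el C x := by linarith
    have := int_lo2 (h.rd.cont x0 x1) (h.fpos x1) (h.mre x0 x1) (L := c / 2 * el C x ^ (1 / 2 : ℝ))
      (by positivity) h2
    refine le_trans ?_ this
    calc (c / 2) ^ (p - 1) * el C x ^ ((p - 1) / 2)
        = (c / 2 * el C x ^ (1 / 2 : ℝ)) ^ (p - 1) := by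
          rw [mul_rpow (by positivity) (by positivity), ← rpow_mul l0.le]
          congr 2; ring
      _ = (c / 2 * el C x ^ (1 / 2 : ℝ)) ^ (p - 2) * (c / 2 * el C x ^ (1 / 2 : ℝ)) := by
          rw [show p - 1 = p - 2 + 1 by ring, rpow_add_one (by positivity)]
      _ ≤ _ := by gcongr; linarith
  · obtain ⟨B, B0, hB⟩ := Ph_up 1
    obtain ⟨K, hK⟩ : ∃ K, K = √(2 * B / c) := ⟨_, rfl⟩
    have K0 : 0 < K := by rw [hK]; positivity
    have K2 : K ^ 2 = 2 * B / c := by rw [hK, sq_sqrt (by positivity)]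
    refine ⟨K ^ (p - 2) * (c / 2), by positivity, fun C a h x x0 x1 hq => ?_⟩
    have l1 := el_one C x0 x1
    have l0 : 0 < el C x := by linarith
    have := int_lo1 (h.rd.cont x0 x1) (h.fpos x1) (L := K * el C x ^ (1 / 2 : ℝ))
      (by positivity) hp h2.le
    refine le_trans ?_ this
    have e1 : (el C x ^ (1 / 2 : ℝ)) ^ 2 = el C x := by
      rw [← rpow_natCast, ← rpow_mul l0.le]; norm_num
    have e2 : (∫ t in (0 : ℝ)..1, ‖PS a (√x * ee t)‖ ^ 4) / (K * el C x ^ (1 / 2 : ℝ)) ^ 2 ≤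
        c / 2 * el C x ^ (1 / 2 : ℝ) := by
      rw [mul_pow, e1, K2, div_le_iff₀ (by positivity)]
      have := hB C a h x x0 x1
      norm_num at this
      refine this.trans (le_of_eq ?_)
      rw [show (3 / 2 : ℝ) = 1 / 2 + 1 by norm_num, rpow_add_one l0.ne']
      field_simp
    calc K ^ (p - 2) * (c / 2) * el C x ^ ((p - 1) / 2)
        = (K * el C x ^ (1 / 2 : ℝ)) ^ (p - 2) * (c / 2 * el C x ^ (1 / 2 : ℝ)) := by
          rw [mul_rpow (by positivity) (by positivity), ← rpow_mul l0.le,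
            show (p - 1) / 2 = 1 / 2 * (p - 2) + 1 / 2 by ring, rpow_add l0]
          ring
      _ ≤ _ := by gcongr; linarith

theorem lo_one {c : ℝ} (hc : 0 < c) : ∃ A D, 0 < A ∧ ∀ C a, Good C a →
    ∀ x, 0 ≤ x → x < 1 → D ≤ el C x → c * el C x ^ (1 / 2 : ℝ) ≤
      ∫ t in (0 : ℝ)..1, (PS a (√x * ee t)).re ^ 2 →
    A * log (el C x) ≤ ∫ t in (0 : ℝ)..1, ‖PS a (√x * ee t)‖ := by
  obtain ⟨B, B0, hB⟩ := up_ge (p := 3) (by norm_num)
  obtain ⟨B', hB'⟩ : ∃ B', B' = B + c ^ 2 := ⟨_, rfl⟩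
  obtain ⟨ρ, hρ⟩ : ∃ ρ, ρ = 2 * B' / c := ⟨_, rfl⟩
  have r1 : c / 2 < ρ := by
    rw [hρ, lt_div_iff₀ hc, hB']; nlinarith
  obtain ⟨δ, hδ⟩ : ∃ δ, δ = 4 * (c ^ 2 / 2) / (ρ - c / 2) ^ 2 := ⟨_, rfl⟩
  have r2 : 0 < (ρ - c / 2) ^ 2 := by nlinarith
  have d0 : 0 < δ := by rw [hδ]; positivity
  -- ℓ with `c/2 ℓ^{1/2} ≥ 1`, and `δ/4 log ℓ ≥ 1 - δ log (c/2)`.
  refine ⟨2 / π * (δ / 4), max ((2 / c) ^ 2) (exp (4 / δ * (1 - δ * log (c / 2)))),
    by positivity, fun C a h x x0 x1 hD hq => ?_⟩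
  have l1 := el_one C x0 x1
  have l0 : 0 < el C x := by linarith
  have D1 := (le_max_left _ _).trans hD
  have D2 := (le_max_right _ _).trans hD
  obtain ⟨y, hy⟩ : ∃ y, y = el C x ^ (1 / 2 : ℝ) := ⟨_, rfl⟩
  have y0 : 0 < y := by rw [hy]; positivity
  have y2 : y ^ 2 = el C x := by
    rw [hy, ← rpow_natCast, ← rpow_mul l0.le]; norm_num
  have s1 : 1 ≤ c / 2 * y := by
    rw [← y2] at D1
    have := (sq_le_sq₀ (by positivity) y0.le).mp D1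
    rw [div_le_iff₀ hc] at this
    linarith
  have h1 := int_loglow (h.rd.cont x0 x1) (h.fpos x1) (h.mre x0 x1) (s := c / 2 * y)
    (R := ρ * y) s1 (by gcongr)
  have h2 := (int_log (h.rd.cont x0 x1) (h.fpos x1) (h.mre x0 x1) (h.mlog x1)).2
  have h3 : ∫ t in (0 : ℝ)..1, ‖PS a (√x * ee t)‖ ^ 3 ≤ B * y ^ 2 := by
    have := hB C a h x x0 x1
    norm_num at this
    rw [y2]
    refine le_trans (le_of_eq ?_) this
    rfl
  have h4 : δ ≤ 4 * ((ρ * y + c / 2 * y) * (∫ t in (0 : ℝ)..1, (PS a (√x * ee t)).re ^ 2) -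
      (∫ t in (0 : ℝ)..1, ‖PS a (√x * ee t)‖ ^ 3) - ρ * y * (c / 2 * y)) /
      (ρ * y - c / 2 * y) ^ 2 := by
    rw [show (ρ * y - c / 2 * y) ^ 2 = (ρ - c / 2) ^ 2 * y ^ 2 by ring,
      le_div_iff₀ (by positivity), hδ]
    have k1 : 4 * (c ^ 2 / 2) / (ρ - c / 2) ^ 2 * ((ρ - c / 2) ^ 2 * y ^ 2) =
        4 * (c ^ 2 / 2) * y ^ 2 := by rw [div_mul_eq_mul_div, div_eq_iff r2.ne']; ring
    rw [k1]
    rw [← hy] at hq
    have k2 : (ρ * y + c / 2 * y) * (c * y) ≤ (ρ * y + c / 2 * y) *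
        (∫ t in (0 : ℝ)..1, (PS a (√x * ee t)).re ^ 2) := by
      refine mul_le_mul_of_nonneg_left hq ?_
      have : 0 < ρ := by linarith
      positivity
    have k3 : ρ * c = 2 * B' := by rw [hρ]; field_simp
    have k4 : ρ * (c / 2) = B' := by linarith
    have k5 : (ρ * y + c / 2 * y) * (c * y) = (ρ * c + c ^ 2 / 2) * y ^ 2 := by ring
    have k6 : ρ * y * (c / 2 * y) = (ρ * (c / 2)) * y ^ 2 := by ring
    rw [k5, k3] at k2
    rw [k6, k4]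
    nlinarith [sq_nonneg c, sq_nonneg y, mul_nonneg (sq_nonneg c) (sq_nonneg y)]
  have h5 : log (c / 2 * y) = log (c / 2) + 1 / 2 * log (el C x) := by
    rw [log_mul (by positivity) y0.ne', hy, log_rpow l0]
  have h6 : 0 ≤ log (c / 2 * y) := log_nonneg s1
  have h7 : -1 + log (c / 2 * y) * δ ≤ π / 2 * ∫ t in (0 : ℝ)..1, ‖PS a (√x * ee t)‖ := by
    refine le_trans ?_ (h1.trans h2)
    gcongr
  have h8 : 4 / δ * (1 - δ * log (c / 2)) ≤ log (el C x) := by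
    rw [Real.le_log_iff_exp_le l0]; exact D2
  have h9 : 1 - δ * log (c / 2) ≤ δ / 4 * log (el C x) := by
    have := mul_le_mul_of_nonneg_left h8 (by positivity : 0 ≤ δ / 4)
    rwa [← mul_assoc, show δ / 4 * (4 / δ) = 1 by field_simp, one_mul] at this
  rw [h5] at h7
  have h10 : δ / 4 * log (el C x) ≤ π / 2 * ∫ t in (0 : ℝ)..1, ‖PS a (√x * ee t)‖ := by
    nlinarith
  calc 2 / π * (δ / 4) * log (el C x) = 2 / π * (δ / 4 * log (el C x)) := by ring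
    _ ≤ 2 / π * (π / 2 * ∫ t in (0 : ℝ)..1, ‖PS a (√x * ee t)‖) := by gcongr
    _ = _ := by field_simp

end Pool.Agent.KS6_90.BP
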